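import Pool.Agent.W957.MF.Stm2

/-!
Project MF: the finite base case of unique reading of pin sequences.
-/

set_option autoImplicit false

namespace Pool.Agent.W239.MFB

open Finset Pool.Agent.W957.MF

/-! ### the finite check -/

/-- directions of the pins 3, ..., 7 -/
def dd (d3 d4 d5 d6 d7 : Bool) (j : ℕ) : Bool :=
  cond (Nat.beq j 3) d3 (cond (Nat.beq j 4) d4 (cond (Nat.beq j 5) d5 (cond (Nat.beq j 6) d6 d7)))

/-- the flipped axes -/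
def ee (e3 : Bool) (j : ℕ) : Bool := cond (Nat.beq (j % 2) 1) e3 (!e3)

/-- comparison of the points `i < j` -/
def ltN (e3 p q d3 d4 d5 d6 d7 b : Bool) (i j : ℕ) : Bool :=
  cond (Nat.beq j 2) (cond (b == e3) p q)
    (cond (b == ee e3 j)
      (xor (Nat.beq (i + 1) j) (cond (Nat.beq j 3) p (dd d3 d4 d5 d6 d7 (j - 1))))
      (dd d3 d4 d5 d6 d7 j))

/-- comparison of two points -/
def cmpN (e3 p q d3 d4 d5 d6 d7 b : Bool) (i j : ℕ) : Bool :=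
  cond (Nat.blt i j) (ltN e3 p q d3 d4 d5 d6 d7 b i j)
    (cond (Nat.blt j i) (!ltN e3 p q d3 d4 d5 d6 d7 b j i) false)

/-- rank of the point `k` on the axis `b` -/
def rk (e3 p q d3 d4 d5 d6 d7 b : Bool) (k : ℕ) : ℕ :=
  (cmpN e3 p q d3 d4 d5 d6 d7 b 1 k).toNat + (cmpN e3 p q d3 d4 d5 d6 d7 b 2 k).toNat +
  (cmpN e3 p q d3 d4 d5 d6 d7 b 3 k).toNat + (cmpN e3 p q d3 d4 d5 d6 d7 b 4 k).toNat +
  (cmpN e3 p q d3 d4 d5 d6 d7 b 5 k).toNat + (cmpN e3 p q d3 d4 d5 d6 d7 b 6 k).toNat +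
  (cmpN e3 p q d3 d4 d5 d6 d7 b 7 k).toNat

/-- contribution of the point `k` to the number of the permutation -/
def term (e3 p q d3 d4 d5 d6 d7 : Bool) (k : ℕ) : ℕ :=
  rk e3 p q d3 d4 d5 d6 d7 false k * 7 ^ rk e3 p q d3 d4 d5 d6 d7 true k

/-- the number of the permutation -/
def NN (e3 p q d3 d4 d5 d6 d7 : Bool) : ℕ :=
  term e3 p q d3 d4 d5 d6 d7 1 + term e3 p q d3 d4 d5 d6 d7 2 + term e3 p q d3 d4 d5 d6 d7 3 +
  term e3 p q d3 d4 d5 d6 d7 4 + term e3 p q d3 d4 d5 d6 d7 5 + term e3 p q d3 d4 d5 d6 d7 6 +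
  term e3 p q d3 d4 d5 d6 d7 7

/-- the number of the directions -/
def DD (e3 d3 d4 d5 d6 d7 : Bool) : ℕ :=
  e3.toNat + 2 * d3.toNat + 4 * d4.toNat + 8 * d5.toNat + 16 * d6.toNat + 32 * d7.toNat

/-- the table of the permutations with a turn -/
def tab : List (ℕ × ℕ) :=
  [(169755, 40), (170343, 40), (183363, 38), (183951, 38), (185883, 22), (189999, 22),
   (202611, 44), (203199, 44), (206679, 45), (208155, 34), (208743, 34), (209031, 45),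
   (224691, 24), (225159, 51), (227511, 51), (228231, 55), (228279, 55), (228807, 24),
   (244311, 41), (244767, 19), (247119, 19), (247839, 23), (247887, 23), (326775, 35),
   (343887, 13), (346239, 13), (359427, 18), (359559, 41), (363543, 18), (364743, 8),
   (368859, 8), (381519, 9), (442023, 35), (454683, 28), (458799, 28), (459999, 6), (463983, 3),
   (464115, 6), (477303, 39), (479655, 39), (496767, 9), (575655, 61), (575703, 61),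
   (576423, 57), (578775, 57), (579231, 3), (594735, 12), (595263, 29), (595311, 29),
   (596031, 25), (598383, 25), (598851, 12), (614511, 7), (614799, 54), (615387, 54),
   (616863, 7), (620343, 56), (620931, 56), (633543, 2), (637659, 2), (639591, 50), (640179, 50),
   (653199, 60), (653787, 60)]

/-- search in a table -/
def look (N : ℕ) : List (ℕ × ℕ) → Option ℕ
  | [] => none
  | x :: l => cond (Nat.beq x.1 N) (some x.2) (look N l)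

/-- the check for one code -/
def chk1 (e3 p q d3 d4 d5 d6 d7 : Bool) : Bool :=
  match look (NN e3 p q d3 d4 d5 d6 d7) tab with
  | some D => Nat.beq D (DD e3 d3 d4 d5 d6 d7)
  | none => d3 == d5

theorem check1 : ∀ e3 p q d3 d4 d5 d6 d7 : Bool, chk1 e3 p q d3 d4 d5 d6 d7 = true := by
  decide +kernel

/-- one point separates the set `y` -/
def sepw (e3 p q d3 d4 d5 d6 d7 : Bool) (y1 y2 y3 y4 y5 y6 y7 : Bool) (b : Bool) (w : ℕ) : Bool :=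
  ((y1 && cmpN e3 p q d3 d4 d5 d6 d7 b 1 w) || (y2 && cmpN e3 p q d3 d4 d5 d6 d7 b 2 w) ||
   (y3 && cmpN e3 p q d3 d4 d5 d6 d7 b 3 w) || (y4 && cmpN e3 p q d3 d4 d5 d6 d7 b 4 w) ||
   (y5 && cmpN e3 p q d3 d4 d5 d6 d7 b 5 w) || (y6 && cmpN e3 p q d3 d4 d5 d6 d7 b 6 w) ||
   (y7 && cmpN e3 p q d3 d4 d5 d6 d7 b 7 w)) &&
  ((y1 && cmpN e3 p q d3 d4 d5 d6 d7 b w 1) || (y2 && cmpN e3 p q d3 d4 d5 d6 d7 b w 2) ||
   (y3 && cmpN e3 p q d3 d4 d5 d6 d7 b w 3) || (y4 && cmpN e3 p q d3 d4 d5 d6 d7 b w 4) ||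
   (y5 && cmpN e3 p q d3 d4 d5 d6 d7 b w 5) || (y6 && cmpN e3 p q d3 d4 d5 d6 d7 b w 6) ||
   (y7 && cmpN e3 p q d3 d4 d5 d6 d7 b w 7))

/-- some point separates the set `y` -/
def sep (e3 p q d3 d4 d5 d6 d7 : Bool) (y1 y2 y3 y4 y5 y6 y7 : Bool) : Bool :=
  (!y1 && (sepw e3 p q d3 d4 d5 d6 d7 y1 y2 y3 y4 y5 y6 y7 true 1 ||
    sepw e3 p q d3 d4 d5 d6 d7 y1 y2 y3 y4 y5 y6 y7 false 1)) ||
  (!y2 && (sepw e3 p q d3 d4 d5 d6 d7 y1 y2 y3 y4 y5 y6 y7 true 2 ||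
    sepw e3 p q d3 d4 d5 d6 d7 y1 y2 y3 y4 y5 y6 y7 false 2)) ||
  (!y3 && (sepw e3 p q d3 d4 d5 d6 d7 y1 y2 y3 y4 y5 y6 y7 true 3 ||
    sepw e3 p q d3 d4 d5 d6 d7 y1 y2 y3 y4 y5 y6 y7 false 3)) ||
  (!y4 && (sepw e3 p q d3 d4 d5 d6 d7 y1 y2 y3 y4 y5 y6 y7 true 4 ||
    sepw e3 p q d3 d4 d5 d6 d7 y1 y2 y3 y4 y5 y6 y7 false 4)) ||
  (!y5 && (sepw e3 p q d3 d4 d5 d6 d7 y1 y2 y3 y4 y5 y6 y7 true 5 ||
    sepw e3 p q d3 d4 d5 d6 d7 y1 y2 y3 y4 y5 y6 y7 false 5)) ||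
  (!y6 && (sepw e3 p q d3 d4 d5 d6 d7 y1 y2 y3 y4 y5 y6 y7 true 6 ||
    sepw e3 p q d3 d4 d5 d6 d7 y1 y2 y3 y4 y5 y6 y7 false 6)) ||
  (!y7 && (sepw e3 p q d3 d4 d5 d6 d7 y1 y2 y3 y4 y5 y6 y7 true 7 ||
    sepw e3 p q d3 d4 d5 d6 d7 y1 y2 y3 y4 y5 y6 y7 false 7))

/-- the number of true values -/
def cnt (y1 y2 y3 y4 y5 y6 y7 : Bool) : ℕ :=
  y1.toNat + y2.toNat + y3.toNat + y4.toNat + y5.toNat + y6.toNat + y7.toNat

/-- the check for one code and one set -/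
def chk2 (e3 p q d3 d4 d5 d6 d7 : Bool) (y1 y2 y3 y4 y5 y6 y7 : Bool) : Bool :=
  (d3 == d5) || Nat.ble (cnt y1 y2 y3 y4 y5 y6 y7) 1 || Nat.beq (cnt y1 y2 y3 y4 y5 y6 y7) 7 ||
  sep e3 p q d3 d4 d5 d6 d7 y1 y2 y3 y4 y5 y6 y7

theorem check2 : ∀ e3 p q d3 d4 d5 d6 d7 : Bool, ∀ y1 y2 y3 y4 y5 y6 y7 : Bool,
    chk2 e3 p q d3 d4 d5 d6 d7 y1 y2 y3 y4 y5 y6 y7 = true := by
  decide +kernel

end Pool.Agent.W239.MFB
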