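import Pool.Agent.W957.MF.Stm2
import Pool.Agent.W239.MF.Base7

/-!
Project MF: the finite base case of unique reading of pin sequences, from the finite check.
-/

set_option autoImplicit false

namespace Pool.Agent.W239.MFB

open Finset Pool.Agent.W957.MF

theorem nbeq {a b : ℕ} (h : a ≠ b) : Nat.beq a b = false := by
  cases h' : Nat.beq a b
  · rfl
  · exact absurd (Nat.eq_of_beq_eq_true h') h

/-- seven points of a pin sequence: a base point and six consecutive ones, or a window -/
structure Win (n : ℕ) (B : ℕ → ℕ) : Prop where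
  h3 : 3 ≤ B 3
  hB : ∀ j, 3 ≤ j → j ≤ 7 → B j + 3 = B 3 + j
  h7 : B 7 ≤ n
  h2 : B 2 + 1 = B 3
  h1 : 1 ≤ B 1
  h13 : B 1 + 2 ≤ B 3

section
variable {z : Conf} {n : ℕ} {Q : ℕ → Bool → Bool} {e : ℕ → Bool} {B : ℕ → ℕ}

theorem Win.succ (hW : Win n B) {j : ℕ} (h3 : 3 ≤ j) (h7 : j + 1 ≤ 7) : B (j + 1) = B j + 1 := by
  have h1 := hW.hB j h3 (by omega)
  have h2 := hW.hB (j + 1) (by omega) h7
  omega

theorem step (hinf : S_PINF) (hP : Pin z n Q e) (hW : Win n B) {j : ℕ} (h3 : 3 ≤ j)
    (h7 : j + 1 ≤ 7) : e (B (j + 1)) = !e (B j) ∧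
      Q (B (j + 1)) (e (B (j + 1))) = Q (B j) (!e (B j)) := by
  have h1 := hW.hB j h3 (by omega)
  have h2 := hW.hB 7 (by omega) le_rfl
  have h4 := hW.h7
  have h5 := hW.h3
  obtain ⟨h6, h7'⟩ := hinf z n Q e hP (B j) (by omega) (by omega)
  rw [hW.succ h3 h7]
  refine ⟨h6, ?_⟩
  rw [h6]
  exact h7'

theorem ee_eq (hinf : S_PINF) (hP : Pin z n Q e) (hW : Win n B) :
    ∀ j, 3 ≤ j → j ≤ 7 → ee (e (B 3)) j = e (B j) := by
  have e4 := (step hinf hP hW (j := 3) le_rfl (by omega)).1
  have e5 := (step hinf hP hW (j := 4) (by omega) (by omega)).1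
  have e6 := (step hinf hP hW (j := 5) (by omega) (by omega)).1
  have e7 := (step hinf hP hW (j := 6) (by omega) (by omega)).1
  norm_num at e4 e5 e6 e7
  intro j h3 h7
  interval_cases j
  · rfl
  · rw [e4]; rfl
  · rw [e5, e4]
    cases e (B 3) <;> rfl
  · rw [e6, e5, e4]
    cases e (B 3) <;> rfl
  · rw [e7, e6, e5, e4]
    cases e (B 3) <;> rfl

/-- the direction bits -/
def db (Q : ℕ → Bool → Bool) (e : ℕ → Bool) (B : ℕ → ℕ) (j : ℕ) : Bool := Q (B j) (!e (B j))

theorem dd_eq (f : ℕ → Bool) : ∀ j, 3 ≤ j → j ≤ 7 → dd (f 3) (f 4) (f 5) (f 6) (f 7) j = f j := by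
  intro j h3 h7
  interval_cases j <;> rfl

/-- the sign of the first two points on the axis that is not flipped -/
noncomputable def qb (z : Conf) (e : ℕ → Bool) (B : ℕ → ℕ) : Bool :=
  decide (z (!e (B 3)) (B 1) < z (!e (B 3)) (B 2))

theorem lt_spec (hinf : S_PINF) (hP : Pin z n Q e) (hW : Win n B) (b : Bool) (i j : ℕ)
    (hi : 1 ≤ i) (hij : i < j) (hj : j ≤ 7) :
    sl (ltN (e (B 3)) (Q (B 3) (e (B 3))) (qb z e B) (db Q e B 3) (db Q e B 4) (db Q e B 5)
      (db Q e B 6) (db Q e B 7) b i j) (z b (B i)) (z b (B j)) := by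
  have hB3 := hW.h3
  have hB2 := hW.h2
  have hB1 := hW.h1
  have hB13 := hW.h13
  have hB7 := hW.h7
  have hB7' := hW.hB 7 (by omega) le_rfl
  rcases Nat.lt_or_ge 2 j with h2 | h2
  · -- j ≥ 3
    have hBj := hW.hB j (by omega) hj
    have hne : Nat.beq j 2 = false := nbeq (by omega)
    have hee := ee_eq hinf hP hW j (by omega) hj
    have hdd := dd_eq (db Q e B) j (by omega) hj
    -- the sign on the flipped axis
    have hQe : cond (Nat.beq j 3) (Q (B 3) (e (B 3)))
        (dd (db Q e B 3) (db Q e B 4) (db Q e B 5) (db Q e B 6) (db Q e B 7) (j - 1)) =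
        Q (B j) (e (B j)) := by
      rcases Nat.lt_or_ge 3 j with h3 | h3
      · have hne3 : Nat.beq j 3 = false := nbeq (by omega)
        rw [hne3, cond_false, dd_eq (db Q e B) (j - 1) (by omega) (by omega)]
        have := (step hinf hP hW (j := j - 1) (by omega) (by omega)).2
        have e1 : j - 1 + 1 = j := by omega
        rw [e1] at this
        rw [this]
        rfl
      · have : j = 3 := by omega
        subst this
        rfl
    unfold ltN
    rw [hne, cond_false, hee, hdd, hQe]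
    by_cases hb : b = e (B j)
    · have hbeq : (b == e (B j)) = true := by rw [hb]; exact beq_self_eq_true _
      rw [hbeq, cond_true]
      by_cases hadj : i + 1 = j
      · have h5 : Nat.beq (i + 1) j = true := by rw [hadj]; exact Nat.beq_refl j
        rw [h5, Bool.true_xor]
        have h6 := hP.nearF (B j) (by omega) (by omega)
        have h7 : B j - 1 = B i := by
          rcases Nat.lt_or_ge 3 j with h3 | h3
          · have := hW.hB i (by omega) (by omega)
            omega
          · have : i = 2 := by omega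
            subst this
            have : j = 3 := by omega
            subst this
            omega
        rw [h7] at h6
        rw [hb]
        exact h6
      · have h5 : Nat.beq (i + 1) j = false := nbeq hadj
        rw [h5, Bool.false_xor]
        have h6 := hP.far (B j) (B i) b (by omega) (by omega)
        rw [hb] at h6 ⊢
        rcases Nat.lt_or_ge 2 i with hi2 | hi2
        · have := hW.hB i (by omega) (by omega)
          exact h6 (by omega) (by omega)
        · rcases Nat.lt_or_ge 1 i with hi1 | hi1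
          · have : i = 2 := by omega
            subst this
            exact h6 (by omega) (by omega)
          · have : i = 1 := by omega
            subst this
            exact h6 (by omega) (by omega)
    · have hbeq : (b == e (B j)) = false := by
        rw [beq_eq_false_iff_ne]
        exact hb
      have hb' : b = !e (B j) := by
        cases b <;> cases h : e (B j) <;> simp_all
      rw [hbeq, cond_false]
      have hdbj : db Q e B j = Q (B j) (!e (B j)) := rfl
      rw [hdbj]
      by_cases hadj : i + 1 = j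
      · have h6 := hP.nearE (B j) (by omega) (by omega)
        have h7 : B j - 1 = B i := by
          rcases Nat.lt_or_ge 3 j with h3 | h3
          · have := hW.hB i (by omega) (by omega)
            omega
          · have : i = 2 := by omega
            subst this
            have : j = 3 := by omega
            subst this
            omega
        rw [h7] at h6
        rw [hb']
        exact h6
      · have h6 := hP.far (B j) (B i) b (by omega) (by omega)
        rw [hb'] at h6 ⊢
        rcases Nat.lt_or_ge 2 i with hi2 | hi2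
        · have := hW.hB i (by omega) (by omega)
          exact h6 (by omega) (by omega)
        · rcases Nat.lt_or_ge 1 i with hi1 | hi1
          · have : i = 2 := by omega
            subst this
            exact h6 (by omega) (by omega)
          · have : i = 1 := by omega
            subst this
            exact h6 (by omega) (by omega)
  · -- j = 2, i = 1
    have hj2 : j = 2 := by omega
    have hi1 : i = 1 := by omega
    subst hj2
    subst hi1
    unfold ltN
    rw [show Nat.beq 2 2 = true from rfl, cond_true]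
    by_cases hb : b = e (B 3)
    · have hbeq : (b == e (B 3)) = true := by rw [hb]; exact beq_self_eq_true _
      rw [hbeq, cond_true]
      have h5 := hP.far (B 3) (B 1) b (by omega) (by omega) (by omega) (by omega)
      have h6 := hP.nearF (B 3) (by omega) (by omega)
      have h7 : B 3 - 1 = B 2 := by omega
      rw [h7] at h6
      rw [← hb] at h6 ⊢
      rcases Bool.eq_false_or_eq_true (Q (B 3) b) with h8 | h8
      · rw [h8] at h5 h6 ⊢
        simp only [Bool.not_true, sl] at h5 h6 ⊢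
        exact lt_trans h5 h6
      · rw [h8] at h5 h6 ⊢
        simp only [Bool.not_false, sl] at h5 h6 ⊢
        exact lt_trans h6 h5
    · have hbeq : (b == e (B 3)) = false := by
        rw [beq_eq_false_iff_ne]
        exact hb
      have hb' : b = !e (B 3) := by
        cases b <;> cases h : e (B 3) <;> simp_all
      rw [hbeq, cond_false, hb']
      unfold qb
      by_cases hlt : z (!e (B 3)) (B 1) < z (!e (B 3)) (B 2)
      · rw [decide_eq_true hlt]
        exact hlt
      · rw [decide_eq_false hlt]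
        have hne : z (!e (B 3)) (B 1) ≠ z (!e (B 3)) (B 2) := by
          intro h
          have := hP.gp (!e (B 3)) (by simp; omega) (by simp; omega) h
          omega
        exact lt_of_le_of_ne (not_lt.1 hlt) (Ne.symm hne)

theorem cmp_spec (hinf : S_PINF) (hP : Pin z n Q e) (hW : Win n B) (b : Bool) (i j : ℕ)
    (hi : 1 ≤ i) (hi7 : i ≤ 7) (hj : 1 ≤ j) (hj7 : j ≤ 7) :
    cmpN (e (B 3)) (Q (B 3) (e (B 3))) (qb z e B) (db Q e B 3) (db Q e B 4) (db Q e B 5)
      (db Q e B 6) (db Q e B 7) b i j = true ↔ z b (B i) < z b (B j) := by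
  unfold cmpN
  rcases lt_trichotomy i j with h | h | h
  · have h1 : Nat.blt i j = true := by
      rw [Nat.blt_eq]
      exact h
    rw [h1, cond_true]
    have h2 := lt_spec hinf hP hW b i j hi h hj7
    cases hc : ltN (e (B 3)) (Q (B 3) (e (B 3))) (qb z e B) (db Q e B 3) (db Q e B 4)
      (db Q e B 5) (db Q e B 6) (db Q e B 7) b i j
    · rw [hc] at h2
      simp only [sl] at h2
      constructor
      · intro h3
        exact absurd h3 (by decide)
      · intro h3
        exact absurd h3 (asymm h2)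
    · rw [hc] at h2
      simp only [sl] at h2
      simp [h2]
  · subst h
    have h1 : Nat.blt i i = false := by
      rw [Bool.eq_false_iff]
      intro h
      rw [Nat.blt_eq] at h
      omega
    rw [h1, cond_false, cond_false]
    simp
  · have h1 : Nat.blt i j = false := by
      rw [Bool.eq_false_iff]
      intro h'
      rw [Nat.blt_eq] at h'
      omega
    have h1' : Nat.blt j i = true := by
      rw [Nat.blt_eq]
      exact h
    rw [h1, cond_false, h1', cond_true]
    have h2 := lt_spec hinf hP hW b j i hj h hi7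
    cases hc : ltN (e (B 3)) (Q (B 3) (e (B 3))) (qb z e B) (db Q e B 3) (db Q e B 4)
      (db Q e B 5) (db Q e B 6) (db Q e B 7) b j i
    · rw [hc] at h2
      simp only [sl] at h2
      simp [h2]
    · rw [hc] at h2
      simp only [sl] at h2
      constructor
      · intro h3
        exact absurd h3 (by decide)
      · intro h3
        exact absurd h3 (asymm h2)

/-- the rank is the number of smaller points -/
theorem rk_eq (hinf : S_PINF) (hP : Pin z n Q e) (hW : Win n B) (b : Bool) (k : Fin 7) :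
    rk (e (B 3)) (Q (B 3) (e (B 3))) (qb z e B) (db Q e B 3) (db Q e B 4) (db Q e B 5)
      (db Q e B 6) (db Q e B 7) b (k + 1) =
    ((univ : Finset (Fin 7)).filter fun j : Fin 7 =>
      z b (B ((j : ℕ) + 1)) < z b (B ((k : ℕ) + 1))).card := by
  have h1 : ∀ j : Fin 7, (cmpN (e (B 3)) (Q (B 3) (e (B 3))) (qb z e B) (db Q e B 3) (db Q e B 4)
      (db Q e B 5) (db Q e B 6) (db Q e B 7) b (j + 1) (k + 1)).toNat =
      if z b (B (j + 1)) < z b (B (k + 1)) then 1 else 0 := by
    intro j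
    have h2 := cmp_spec hinf hP hW b (j + 1) (k + 1) (by omega) (by omega) (by omega) (by omega)
    by_cases h3 : z b (B (j + 1)) < z b (B (k + 1))
    · rw [if_pos h3, h2.2 h3]
      rfl
    · rw [if_neg h3]
      have : cmpN (e (B 3)) (Q (B 3) (e (B 3))) (qb z e B) (db Q e B 3) (db Q e B 4)
        (db Q e B 5) (db Q e B 6) (db Q e B 7) b (j + 1) (k + 1) = false := by
        rw [Bool.eq_false_iff]
        intro h4
        exact h3 (h2.1 h4)
      rw [this]
      rfl
  rw [Finset.card_filter, Fin.sum_univ_seven, ← h1 0, ← h1 1, ← h1 2, ← h1 3, ← h1 4, ← h1 5,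
    ← h1 6]
  rfl

theorem NN_eq (hinf : S_PINF) (hP : Pin z n Q e) (hW : Win n B) (A : Finset ℕ)
    (hA : ∀ x ∈ A, ∃ k : Fin 7, B (k + 1) = x) (σ : Equiv.Perm (Fin 7)) (hocc : Occ z A σ) :
    NN (e (B 3)) (Q (B 3) (e (B 3))) (qb z e B) (db Q e B 3) (db Q e B 4) (db Q e B 5)
      (db Q e B 6) (db Q e B 7) = ∑ i : Fin 7, (σ i : ℕ) * 7 ^ (i : ℕ) := by
  obtain ⟨f, hfA, hft, hff⟩ := hocc
  choose κ hκ using fun i => hA (f i) (hfA i)
  have hκinj : Function.Injective κ := by
    intro i i' h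
    have h1 : f i = f i' := by rw [← hκ i, ← hκ i', h]
    rcases lt_trichotomy i i' with h2 | h2 | h2
    · have := (hft i i').1 h2
      rw [h1] at this
      exact absurd this (lt_irrefl _)
    · exact h2
    · have := (hft i' i).1 h2
      rw [h1] at this
      exact absurd this (lt_irrefl _)
  have hκbij : Function.Bijective κ := Finite.injective_iff_bijective.1 hκinj
  -- transport of the ranks
  have htr : ∀ (b : Bool) (i : Fin 7),
      ((univ : Finset (Fin 7)).filter fun j : Fin 7 =>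
        z b (B ((j : ℕ) + 1)) < z b (B ((κ i : ℕ) + 1))).card =
      ((univ : Finset (Fin 7)).filter fun j => z b (f j) < z b (f i)).card := by
    intro b i
    have h1 : ((univ : Finset (Fin 7)).filter fun j : Fin 7 =>
        z b (B ((j : ℕ) + 1)) < z b (B ((κ i : ℕ) + 1))) =
        ((univ : Finset (Fin 7)).filter fun j => z b (f j) < z b (f i)).image κ := by
      ext j
      simp only [Finset.mem_filter, Finset.mem_univ, true_and, Finset.mem_image]
      constructor
      · intro h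
        obtain ⟨j', rfl⟩ := hκbij.2 j
        refine ⟨j', ?_, rfl⟩
        rw [hκ j', hκ i] at h
        exact h
      · rintro ⟨j', h, rfl⟩
        rw [hκ j', hκ i]
        exact h
    rw [h1, Finset.card_image_of_injective _ hκinj]
  have hrt : ∀ i : Fin 7, rk (e (B 3)) (Q (B 3) (e (B 3))) (qb z e B) (db Q e B 3) (db Q e B 4)
      (db Q e B 5) (db Q e B 6) (db Q e B 7) true (κ i + 1) = (i : ℕ) := by
    intro i
    rw [rk_eq hinf hP hW true (κ i), htr]
    have h1 : ((univ : Finset (Fin 7)).filter fun j => z true (f j) < z true (f i)) =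
        Finset.Iio i := by
      ext j
      simp only [Finset.mem_filter, Finset.mem_univ, true_and, Finset.mem_Iio]
      exact (hft j i).symm
    rw [h1, Fin.card_Iio]
  have hrf : ∀ i : Fin 7, rk (e (B 3)) (Q (B 3) (e (B 3))) (qb z e B) (db Q e B 3) (db Q e B 4)
      (db Q e B 5) (db Q e B 6) (db Q e B 7) false (κ i + 1) = (σ i : ℕ) := by
    intro i
    rw [rk_eq hinf hP hW false (κ i), htr]
    have h1 : (((univ : Finset (Fin 7)).filter fun j => z false (f j) < z false (f i)).image σ) =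
        Finset.Iio (σ i) := by
      ext j
      simp only [Finset.mem_filter, Finset.mem_univ, true_and, Finset.mem_Iio, Finset.mem_image]
      constructor
      · rintro ⟨j', h, rfl⟩
        exact (hff j' i).2 h
      · intro h
        refine ⟨σ.symm j, ?_, σ.apply_symm_apply j⟩
        rw [← hff, σ.apply_symm_apply]
        exact h
    rw [← Finset.card_image_of_injective _ σ.injective, h1, Fin.card_Iio]
  have hNN : NN (e (B 3)) (Q (B 3) (e (B 3))) (qb z e B) (db Q e B 3) (db Q e B 4) (db Q e B 5)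
      (db Q e B 6) (db Q e B 7) = ∑ k : Fin 7, term (e (B 3)) (Q (B 3) (e (B 3))) (qb z e B)
      (db Q e B 3) (db Q e B 4) (db Q e B 5) (db Q e B 6) (db Q e B 7) (k + 1) := by
    rw [Fin.sum_univ_seven]
    rfl
  rw [hNN, ← Function.Bijective.sum_comp hκbij]
  refine Finset.sum_congr rfl fun i _ => ?_
  unfold term
  rw [hrt, hrf]

end

theorem DD_inj : ∀ a1 a2 a3 a4 a5 a6 b1 b2 b3 b4 b5 b6 : Bool,
    DD a1 a2 a3 a4 a5 a6 = DD b1 b2 b3 b4 b5 b6 →
    a1 = b1 ∧ a2 = b2 ∧ a3 = b3 ∧ a4 = b4 ∧ a5 = b5 ∧ a6 = b6 := by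
  decide +kernel

theorem unique (e3 p q d3 d4 d5 d6 d7 e3' p' q' d3' d4' d5' d6' d7' : Bool) (h : d3 ≠ d5)
    (hN : NN e3 p q d3 d4 d5 d6 d7 = NN e3' p' q' d3' d4' d5' d6' d7') :
    e3 = e3' ∧ d3 = d3' ∧ d4 = d4' ∧ d5 = d5' ∧ d6 = d6' ∧ d7 = d7' := by
  have h1 := check1 e3 p q d3 d4 d5 d6 d7
  have h2 := check1 e3' p' q' d3' d4' d5' d6' d7'
  unfold chk1 at h1 h2
  rw [← hN] at h2
  cases hl : look (NN e3 p q d3 d4 d5 d6 d7) tab with
  | none =>
    rw [hl] at h1
    simp only [beq_iff_eq] at h1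
    exact absurd h1 h
  | some D =>
    rw [hl] at h1 h2
    simp only [Nat.beq_eq] at h1 h2
    exact DD_inj _ _ _ _ _ _ _ _ _ _ _ _ (h1.symm.trans h2)

theorem win_id {n : ℕ} (hn : 7 ≤ n) : Win n (fun j => j) where
  h3 := le_refl 3
  hB := fun j _ _ => by omega
  h7 := hn
  h2 := rfl
  h1 := le_refl 1
  h13 := by norm_num

theorem t_BORDER7 (hinf : S_PINF) : S_BORDER7 := by
  intro z n Q e hP s t T σ hn hdir hR hs hst ht hT hTR k hk3 hk7
  obtain ⟨hTs, hcard, hocc'⟩ := hTR
  obtain ⟨-, hocc⟩ := hR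
  have hW := win_id hn
  have hN := NN_eq hinf hP hW (Icc 1 7) (by
    intro x hx
    rw [Finset.mem_Icc] at hx
    exact ⟨⟨x - 1, by omega⟩, by simp; omega⟩) σ hocc
  -- the second window
  have hwin : ∃ B : ℕ → ℕ, Win n B ∧ (∀ x ∈ T ∪ Icc s t, ∃ k : Fin 7, B (k + 1) = x) ∧
      ∀ j, 3 ≤ j → j ≤ 7 → B j = j + t - 7 := by
    rcases Nat.eq_zero_or_pos T.card with h0 | h0
    · rw [Finset.card_eq_zero] at h0
      subst h0
      rw [Finset.empty_union, Nat.card_Icc] at hcard
      refine ⟨fun j => s + j - 1, ⟨?_, ?_, ?_, ?_, ?_, ?_⟩, ?_, ?_⟩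
      · omega
      · intro j _ _; omega
      · omega
      · omega
      · omega
      · omega
      · intro x hx
        rw [Finset.empty_union, Finset.mem_Icc] at hx
        refine ⟨⟨x - s, by omega⟩, ?_⟩
        simp only
        omega
      · intro j _ _
        show s + j - 1 = j + t - 7
        omega
    · have h1 : T.card = 1 := by omega
      obtain ⟨a, rfl⟩ := Finset.card_eq_one.1 h1
      obtain ⟨ha1, ha2⟩ := hTs a (Finset.mem_singleton_self a)
      have hdisj : Disjoint ({a} : Finset ℕ) (Icc s t) := by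
        rw [Finset.disjoint_singleton_left, Finset.mem_Icc]
        omega
      rw [Finset.card_union_of_disjoint hdisj, Finset.card_singleton, Nat.card_Icc] at hcard
      refine ⟨fun j => if j = 1 then a else s + j - 2, ⟨?_, ?_, ?_, ?_, ?_, ?_⟩, ?_, ?_⟩
      · norm_num
        omega
      · intro j hj3 _
        have : j ≠ 1 := by omega
        simp only [this, if_false]
        norm_num
        omega
      · norm_num
        omega
      · norm_num
        omega
      · norm_num
        omega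
      · norm_num
        omega
      · intro x hx
        rw [Finset.mem_union, Finset.mem_singleton, Finset.mem_Icc] at hx
        rcases hx with hx | hx
        · refine ⟨⟨0, by norm_num⟩, ?_⟩
          simp [hx]
        · refine ⟨⟨x - s + 1, by omega⟩, ?_⟩
          have : x - s + 1 + 1 ≠ 1 := by omega
          simp only [this, if_false]
          omega
      · intro j hj3 _
        have : j ≠ 1 := by omega
        simp only [this, if_false]
        omega
  obtain ⟨B, hWB, hAB, hBt⟩ := hwin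
  have hN' := NN_eq hinf hP hWB (T ∪ Icc s t) hAB σ hocc'
  have hturn : db Q e (fun j => j) 3 ≠ db Q e (fun j => j) 5 := by
    intro h
    apply hdir
    unfold dir
    have e5 : e 5 = e 3 := by
      have h5 : ee (e 3) 5 = e 5 := ee_eq hinf hP hW 5 (by omega) (by omega)
      rw [← h5]
      cases e 3 <;> rfl
    have h' : Q 3 (!e 3) = Q 5 (!e 5) := h
    rw [Prod.mk.injEq]
    exact ⟨e5.symm, h'⟩
  obtain ⟨u1, u2, u3, u4, u5, u6⟩ := unique _ _ _ _ _ _ _ _ _ _ _ _ _ _ _ _ hturn
    (hN.trans hN'.symm)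
  have hek : e k = e (B k) := by
    have h1 : ee (e 3) k = e k := ee_eq hinf hP hW k hk3 hk7
    have h2 := ee_eq hinf hP hWB k hk3 hk7
    rw [← h2, ← h1, ← u1]
  have hdk : db Q e (fun j => j) k = db Q e B k := by
    rw [← dd_eq (db Q e (fun j => j)) k hk3 hk7, ← dd_eq (db Q e B) k hk3 hk7, u2, u3, u4, u5, u6]
  rw [← hBt k hk3 hk7]
  unfold dir
  have hdk' : Q k (!e k) = Q (B k) (!e (B k)) := hdk
  rw [Prod.mk.injEq]
  exact ⟨hek.symm, hdk'.symm⟩

theorem card_cnt (Y : Finset ℕ) (hY : Y ⊆ Icc 1 7) :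
    cnt (decide (1 ∈ Y)) (decide (2 ∈ Y)) (decide (3 ∈ Y)) (decide (4 ∈ Y)) (decide (5 ∈ Y))
      (decide (6 ∈ Y)) (decide (7 ∈ Y)) = Y.card := by
  have h1 : Y = (Icc 1 7).filter (fun x => x ∈ Y) := by
    ext x
    rw [Finset.mem_filter]
    exact ⟨fun h => ⟨hY h, h⟩, fun h => h.2⟩
  have h2 : Icc 1 7 = ({1, 2, 3, 4, 5, 6, 7} : Finset ℕ) := by decide
  have h3 : Y.card = ∑ x ∈ ({1, 2, 3, 4, 5, 6, 7} : Finset ℕ), (decide (x ∈ Y)).toNat := by
    conv_lhs => rw [h1]
    rw [Finset.card_filter, h2]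
    refine Finset.sum_congr rfl fun x _ => ?_
    by_cases hx : x ∈ Y <;> simp [hx]
  rw [h3]
  unfold cnt
  rw [Finset.sum_insert (by decide), Finset.sum_insert (by decide), Finset.sum_insert (by decide),
    Finset.sum_insert (by decide), Finset.sum_insert (by decide), Finset.sum_insert (by decide),
    Finset.sum_singleton]
  ring

theorem or7 {P : ℕ → Prop} {y1 y2 y3 y4 y5 y6 y7 : Prop} {c1 c2 c3 c4 c5 c6 c7 : Prop}
    (h : ((((((y1 ∧ c1 ∨ y2 ∧ c2) ∨ y3 ∧ c3) ∨ y4 ∧ c4) ∨ y5 ∧ c5) ∨ y6 ∧ c6) ∨ y7 ∧ c7))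
    (h1 : y1 → c1 → P 1) (h2 : y2 → c2 → P 2) (h3 : y3 → c3 → P 3) (h4 : y4 → c4 → P 4)
    (h5 : y5 → c5 → P 5) (h6 : y6 → c6 → P 6) (h7 : y7 → c7 → P 7) : ∃ a, P a := by
  rcases h with (((((⟨a, b⟩ | ⟨a, b⟩) | ⟨a, b⟩) | ⟨a, b⟩) | ⟨a, b⟩) | ⟨a, b⟩) | ⟨a, b⟩
  · exact ⟨1, h1 a b⟩
  · exact ⟨2, h2 a b⟩
  · exact ⟨3, h3 a b⟩
  · exact ⟨4, h4 a b⟩
  · exact ⟨5, h5 a b⟩
  · exact ⟨6, h6 a b⟩
  · exact ⟨7, h7 a b⟩

theorem t_SIMP7 (hinf : S_PINF) : S_SIMP7 := by
  intro z n Q e hP hn hdir Y hY hY2 hYne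
  have hW := win_id hn
  have hcmp : ∀ (b : Bool) (i j : ℕ), 1 ≤ i → i ≤ 7 → 1 ≤ j → j ≤ 7 →
      (cmpN (e 3) (Q 3 (e 3)) (qb z e (fun j => j)) (db Q e (fun j => j) 3)
      (db Q e (fun j => j) 4) (db Q e (fun j => j) 5) (db Q e (fun j => j) 6)
      (db Q e (fun j => j) 7) b i j = true ↔ z b i < z b j) :=
    fun b i j h1 h2 h3 h4 => cmp_spec hinf hP hW b i j h1 h2 h3 h4
  have hturn : db Q e (fun j => j) 3 ≠ db Q e (fun j => j) 5 := by
    intro h
    apply hdir
    unfold dir
    have e5 : e 5 = e 3 := by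
      have h5 : ee (e 3) 5 = e 5 := ee_eq hinf hP hW 5 (by omega) (by omega)
      rw [← h5]
      cases e 3 <;> rfl
    have h' : Q 3 (!e 3) = Q 5 (!e 5) := h
    rw [Prod.mk.injEq]
    exact ⟨e5.symm, h'⟩
  generalize qb z e (fun j => j) = q at hcmp
  generalize db Q e (fun j => j) 3 = d3 at hcmp hturn
  generalize db Q e (fun j => j) 4 = d4 at hcmp hturn
  generalize db Q e (fun j => j) 5 = d5 at hcmp hturn
  generalize db Q e (fun j => j) 6 = d6 at hcmp hturn
  generalize db Q e (fun j => j) 7 = d7 at hcmp hturn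
  generalize Q 3 (e 3) = p at hcmp
  generalize e 3 = e3 at hcmp
  have hck := check2 e3 p q d3 d4 d5 d6 d7 (decide (1 ∈ Y)) (decide (2 ∈ Y)) (decide (3 ∈ Y))
    (decide (4 ∈ Y)) (decide (5 ∈ Y)) (decide (6 ∈ Y)) (decide (7 ∈ Y))
  unfold chk2 at hck
  rw [card_cnt Y hY] at hck
  have h1 : (d3 == d5) = false := by
    rw [beq_eq_false_iff_ne]
    exact hturn
  have h2 : Nat.ble Y.card 1 = false := by
    rw [Bool.eq_false_iff]
    intro h
    rw [Nat.ble_eq] at h
    omega
  have h3 : Nat.beq Y.card 7 = false := by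
    apply nbeq
    intro h
    apply hYne
    refine Finset.eq_of_subset_of_card_le hY ?_
    rw [h, Nat.card_Icc]
  rw [h1, h2, h3, Bool.false_or, Bool.false_or, Bool.false_or] at hck
  have hw : ∀ (b : Bool) (w : ℕ), 1 ≤ w → w ≤ 7 →
      sepw e3 p q d3 d4 d5 d6 d7 (decide (1 ∈ Y)) (decide (2 ∈ Y)) (decide (3 ∈ Y))
      (decide (4 ∈ Y)) (decide (5 ∈ Y)) (decide (6 ∈ Y)) (decide (7 ∈ Y)) b w = true →
      ∃ a ∈ Y, ∃ c ∈ Y, z b a < z b w ∧ z b w < z b c := by
    intro b w hw1 hw7 h
    simp only [sepw, Bool.and_eq_true, Bool.or_eq_true, decide_eq_true_eq] at h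
    obtain ⟨ha, hc⟩ := h
    obtain ⟨a, ha1, ha2⟩ := or7 (P := fun a => a ∈ Y ∧ z b a < z b w) ha
      (fun u v => ⟨u, (hcmp b 1 w (by norm_num) (by norm_num) hw1 hw7).1 v⟩)
      (fun u v => ⟨u, (hcmp b 2 w (by norm_num) (by norm_num) hw1 hw7).1 v⟩)
      (fun u v => ⟨u, (hcmp b 3 w (by norm_num) (by norm_num) hw1 hw7).1 v⟩)
      (fun u v => ⟨u, (hcmp b 4 w (by norm_num) (by norm_num) hw1 hw7).1 v⟩)
      (fun u v => ⟨u, (hcmp b 5 w (by norm_num) (by norm_num) hw1 hw7).1 v⟩)
      (fun u v => ⟨u, (hcmp b 6 w (by norm_num) (by norm_num) hw1 hw7).1 v⟩)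
      (fun u v => ⟨u, (hcmp b 7 w (by norm_num) (by norm_num) hw1 hw7).1 v⟩)
    obtain ⟨c, hc1, hc2⟩ := or7 (P := fun c => c ∈ Y ∧ z b w < z b c) hc
      (fun u v => ⟨u, (hcmp b w 1 hw1 hw7 (by norm_num) (by norm_num)).1 v⟩)
      (fun u v => ⟨u, (hcmp b w 2 hw1 hw7 (by norm_num) (by norm_num)).1 v⟩)
      (fun u v => ⟨u, (hcmp b w 3 hw1 hw7 (by norm_num) (by norm_num)).1 v⟩)
      (fun u v => ⟨u, (hcmp b w 4 hw1 hw7 (by norm_num) (by norm_num)).1 v⟩)
      (fun u v => ⟨u, (hcmp b w 5 hw1 hw7 (by norm_num) (by norm_num)).1 v⟩)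
      (fun u v => ⟨u, (hcmp b w 6 hw1 hw7 (by norm_num) (by norm_num)).1 v⟩)
      (fun u v => ⟨u, (hcmp b w 7 hw1 hw7 (by norm_num) (by norm_num)).1 v⟩)
    exact ⟨a, ha1, c, hc1, ha2, hc2⟩
  have hfin : ∀ w : ℕ, 1 ≤ w → w ≤ 7 → ¬ w ∈ Y →
      (sepw e3 p q d3 d4 d5 d6 d7 (decide (1 ∈ Y)) (decide (2 ∈ Y)) (decide (3 ∈ Y))
      (decide (4 ∈ Y)) (decide (5 ∈ Y)) (decide (6 ∈ Y)) (decide (7 ∈ Y)) true w = true ∨
      sepw e3 p q d3 d4 d5 d6 d7 (decide (1 ∈ Y)) (decide (2 ∈ Y)) (decide (3 ∈ Y))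
      (decide (4 ∈ Y)) (decide (5 ∈ Y)) (decide (6 ∈ Y)) (decide (7 ∈ Y)) false w = true) →
      ∃ w ∈ Icc 1 7, w ∉ Y ∧ ∃ b, ∃ a ∈ Y, ∃ c ∈ Y, z b a < z b w ∧ z b w < z b c := by
    intro w hw1 hw7 hwY h
    refine ⟨w, Finset.mem_Icc.2 ⟨hw1, hw7⟩, hwY, ?_⟩
    rcases h with h | h
    · exact ⟨true, hw true w hw1 hw7 h⟩
    · exact ⟨false, hw false w hw1 hw7 h⟩
  simp only [sep, Bool.or_eq_true, Bool.and_eq_true, Bool.not_eq_true', decide_eq_false_iff_not]
    at hck
  rcases hck with (((((h | h) | h) | h) | h) | h) | h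
  · exact hfin 1 (by norm_num) (by norm_num) h.1 h.2
  · exact hfin 2 (by norm_num) (by norm_num) h.1 h.2
  · exact hfin 3 (by norm_num) (by norm_num) h.1 h.2
  · exact hfin 4 (by norm_num) (by norm_num) h.1 h.2
  · exact hfin 5 (by norm_num) (by norm_num) h.1 h.2
  · exact hfin 6 (by norm_num) (by norm_num) h.1 h.2
  · exact hfin 7 (by norm_num) (by norm_num) h.1 h.2

end Pool.Agent.W239.MFB
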